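import Pool.Agent.Lib.MP_144d21_co.XU.Iface

/-! # MP_144d21_co, project XU, module BETDC (helper93): deletion and contraction for `bet`. -/

set_option autoImplicit false

namespace Pool.Agent.Xu.H93

open Finset Polynomial Pool.Agent.Xu

theorem betdc (h1 : ChidcS) : BetdcS := by
  intro V _ _ G S v w hv hw hvw
  have h := h1 V G S v w hv hw hvw
  have hc : S.card = (S.erase v).card + 1 := (Finset.card_erase_add_one hv).symm
  unfold bet
  rw [h, hc, derivative_add, eval_add, pow_succ]
  ring

end Pool.Agent.Xu.H93
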