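import Pool.Agent.Lib.MP_144d21_co.XU.Iface

/-! # MP_144d21_co, project XU, module HAND (helper93): the handshake lemma. -/

set_option autoImplicit false

namespace Pool.Agent.Xu.H93

open Finset Pool.Agent.Xu

theorem hand : HandS := by
  classical
  intro V _ _ G S hlt
  by_contra hcon
  push Not at hcon
  -- the graph `G[S]` on all of `V`
  let H : SimpleGraph V :=
    { Adj := fun a b => G.Adj a b ∧ a ∈ S ∧ b ∈ S
      symm := ⟨fun _ _ h => ⟨h.1.symm, h.2.2, h.2.1⟩⟩
      loopless := ⟨fun _ h => h.1.ne rfl⟩ }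
  have hH : ∀ a b, H.Adj a b ↔ G.Adj a b ∧ a ∈ S ∧ b ∈ S := fun a b => Iff.rfl
  have hdeg : ∀ v ∈ S, H.degree v = (nb G S v).card := by
    intro v hv
    rw [← SimpleGraph.card_neighborFinset_eq_degree]
    congr 1
    ext x
    rw [SimpleGraph.mem_neighborFinset, hH, mem_nb]
    tauto
  have hedge : H.edgeFinset = edg G S := by
    ext e
    induction e with
    | _ a b =>
      rw [SimpleGraph.mem_edgeFinset, SimpleGraph.mem_edgeSet, hH]
      unfold edg
      rw [mem_filter, SimpleGraph.mem_edgeSet]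
      simp only [mem_univ, true_and, Sym2.mem_iff, forall_eq_or_imp, forall_eq]
  have hsum : ∑ v, H.degree v = 2 * ne G S := by
    rw [SimpleGraph.sum_degrees_eq_twice_card_edges, hedge]
    rfl
  have h1 : ∑ v ∈ S, 6 ≤ ∑ v ∈ S, H.degree v := by
    apply Finset.sum_le_sum
    intro v hv
    rw [hdeg v hv]
    exact hcon v hv
  have h2 : ∑ v ∈ S, H.degree v ≤ ∑ v, H.degree v :=
    Finset.sum_le_sum_of_subset (Finset.subset_univ S)
  rw [Finset.sum_const, smul_eq_mul] at h1
  omega

end Pool.Agent.Xu.H93
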